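import Mathlib

namespace Pool.Agent.Results.MP_a2c283_pr.TwoCliques
open Finset Classical

section defs
variable {V : Type} [Fintype V] (G : SimpleGraph V)

/-- transition probability of simple random walk -/
noncomputable def P (x y : V) : ℝ := if G.Adj x y then 1 / (G.degree x : ℝ) else 0

/-- `avoid t v x`: probability that the walk from `x` does not visit `v` at times `0, …, t` -/
noncomputable def avoid : ℕ → V → V → ℝ
  | 0, v, x => if x = v then 0 else 1
  | t + 1, v, x => if x = v then 0 else ∑ y, P G x y * avoid t v y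

/-- expected hitting time `h(x, v) = ∑_t P(T_v > t)` -/
noncomputable def hit (x v : V) : ℝ := ∑' t, avoid G t v x

/-- `unc t S x`: probability that `S` together with the vertices visited at times `0, …, t` by
`k` independent walks started at `x 0, …, x (k-1)` is not all of `V` -/
noncomputable def unc {k : ℕ} : ℕ → Finset V → (Fin k → V) → ℝ
  | 0, S, x => if S ∪ univ.image x = univ then 0 else 1
  | t + 1, S, x => ∑ y : Fin k → V, (∏ i, P G (x i) (y i)) * unc t (S ∪ univ.image x) y

/-- expected cover time `C_{u_1, …, u_k} = ∑_t P(τ > t)` -/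
noncomputable def cover {k : ℕ} (u : Fin k → V) : ℝ := ∑' t, unc G t ∅ u

/-- `C`: worst expected cover time of one walk -/
noncomputable def Cmax : ℝ := ⨆ x : V, cover G (fun _ : Fin 1 => x)

noncomputable def hmax : ℝ := ⨆ p : V × V, hit G p.1 p.2

/-- `H(G) = C / h_max` -/
noncomputable def HH : ℝ := Cmax G / hmax G

end defs

section general
variable {V : Type} [Fintype V] {G : SimpleGraph V}

lemma P_nonneg (x y : V) : 0 ≤ P G x y := by unfold P; split_ifs <;> positivity

lemma avoid_nonneg (t : ℕ) (v x : V) : 0 ≤ avoid G t v x := by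
  induction t generalizing x with
  | zero => simp only [avoid]; split_ifs <;> norm_num
  | succ t ih =>
    simp only [avoid]; split_ifs
    · exact le_rfl
    · exact sum_nonneg fun y _ => mul_nonneg (P_nonneg _ _) (ih y)

lemma unc_nonneg {k : ℕ} (t : ℕ) (S : Finset V) (x : Fin k → V) : 0 ≤ unc G t S x := by
  induction t generalizing x S with
  | zero => simp only [unc]; split_ifs <;> norm_num
  | succ t ih =>
    exact sum_nonneg fun y _ => mul_nonneg (prod_nonneg fun i _ => P_nonneg _ _) (ih _ y)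

lemma avoid_succ_le (hP : ∀ x, ∑ y, P G x y = 1) (t : ℕ) (v x : V) :
    avoid G (t + 1) v x ≤ avoid G t v x := by
  induction t generalizing x with
  | zero =>
    simp only [avoid]; split_ifs
    · exact le_rfl
    · refine le_trans (sum_le_sum fun y _ => ?_) (hP x).le
      have := P_nonneg (G := G) x y; split_ifs <;> simp [this]
  | succ t ih =>
    rw [avoid, avoid]; split_ifs
    · exact le_rfl
    · exact sum_le_sum fun y _ => mul_le_mul_of_nonneg_left (ih y) (P_nonneg _ _)

lemma avoid_anti (hP : ∀ x, ∑ y, P G x y = 1) (v x : V) : Antitone fun t => avoid G t v x :=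
  antitone_nat_of_succ_le fun t => avoid_succ_le hP t v x

lemma sum_avoid_le {v : V} {φ : V → ℝ} (h0 : ∀ x, 0 ≤ φ x)
    (h : ∀ x, x ≠ v → 1 + ∑ y, P G x y * φ y ≤ φ x) (T : ℕ) (x : V) :
    ∑ t ∈ range T, avoid G t v x ≤ φ x := by
  induction T generalizing x with
  | zero => simpa using h0 x
  | succ T ih =>
    rw [sum_range_succ']
    by_cases hx : x = v
    · simpa [avoid, hx] using h0 v
    · simp only [avoid, if_neg hx]
      rw [sum_comm]
      refine le_trans ?_ (h x hx)
      rw [add_comm]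
      refine add_le_add_right (sum_le_sum fun y _ => ?_) _
      rw [← mul_sum]; exact mul_le_mul_of_nonneg_left (ih y) (P_nonneg _ _)

lemma unc_le_one (hP : ∀ x, ∑ y, P G x y = 1) {k : ℕ} (t : ℕ) (S : Finset V) (x : Fin k → V) :
    unc G t S x ≤ 1 := by
  induction t generalizing x S with
  | zero => simp only [unc]; split_ifs <;> norm_num
  | succ t ih =>
    have : ∑ y : Fin k → V, ∏ i, P G (x i) (y i) = 1 := by
      rw [← Fintype.prod_sum]; simp [hP]
    rw [unc, ← this]
    exact sum_le_sum fun y _ => mul_le_of_le_one_right (prod_nonneg fun i _ => P_nonneg _ _) (ih _ y)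

lemma unc_le {k : ℕ} (t : ℕ) (S : Finset V) (x : Fin k → V) :
    unc G t S x ≤ ∑ v ∈ Sᶜ, ∏ i, avoid G t v (x i) := by
  induction t generalizing x S with
  | zero =>
    simp only [unc]
    split_ifs with h
    · exact sum_nonneg fun v _ => prod_nonneg fun i _ => avoid_nonneg _ _ _
    · obtain ⟨v, hv⟩ : ∃ v, v ∉ S ∪ univ.image x := by
        by_contra hc; push Not at hc; exact h (eq_univ_of_forall hc)
      simp only [mem_union, mem_image, mem_univ, true_and, not_or, not_exists] at hv
      refine le_trans ?_ (single_le_sum (f := fun v => ∏ i, avoid G 0 v (x i))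
        (fun v _ => prod_nonneg fun i _ => avoid_nonneg _ _ _) (mem_compl.2 hv.1))
      simp [avoid, hv.2]
  | succ t ih =>
    rw [unc]
    calc _ ≤ ∑ y : Fin k → V, (∏ i, P G (x i) (y i)) *
          ∑ v ∈ (S ∪ univ.image x)ᶜ, ∏ i, avoid G t v (y i) :=
          sum_le_sum fun y _ => mul_le_mul_of_nonneg_left (ih _ y)
            (prod_nonneg fun i _ => P_nonneg _ _)
      _ = ∑ v ∈ (S ∪ univ.image x)ᶜ, ∏ i, avoid G (t + 1) v (x i) := by
          simp only [mul_sum]
          rw [sum_comm]
          refine sum_congr rfl fun v hv => ?_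
          simp only [mem_compl, mem_union, mem_image, mem_univ, true_and, not_or,
            not_exists] at hv
          simp only [avoid, if_neg (hv.2 _), ← prod_mul_distrib]
          rw [Fintype.prod_sum]
      _ ≤ _ := sum_le_sum_of_subset_of_nonneg (compl_subset_compl.2 subset_union_left)
          fun v _ _ => prod_nonneg fun i _ => avoid_nonneg _ _ _

lemma unc_one (t : ℕ) (S : Finset V) (x : V) : unc G (t + 1) S (fun _ : Fin 1 => x)
    = ∑ y, P G x y * unc G t (insert x S) (fun _ : Fin 1 => y) := by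
  rw [unc, ← (Equiv.funUnique (Fin 1) V).symm.sum_comp]
  refine sum_congr rfl fun y _ => ?_
  have : S ∪ univ.image (fun _ : Fin 1 => x) = insert x S := by ext; simp [eq_comm]
  rw [this]; simp; left; rfl

lemma le_sum_unc [d : DecidableEq V] {φ : Finset V → V → ℝ} {B : ℝ} (hB0 : 0 ≤ B) (hB : ∀ S x, φ S x ≤ B)
    (h0 : ∀ S x, insert x S = univ → φ S x ≤ 0)
    (h : ∀ S x, insert x S ≠ univ → φ S x ≤ 1 + ∑ y, P G x y * φ (insert x S) y) (T : ℕ)
    (S : Finset V) (x : V) :
    φ S x ≤ ∑ t ∈ range T, unc G t S (fun _ : Fin 1 => x) + B * unc G T S (fun _ : Fin 1 => x) := by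
  obtain rfl : d = fun a b => Classical.propDecidable (a = b) := Subsingleton.elim _ _
  have e : ∀ (S : Finset V) (x : V), S ∪ univ.image (fun _ : Fin 1 => x) = insert x S := by
    intro S x; ext; simp [eq_comm]
  induction T generalizing x S with
  | zero =>
    simp only [range_zero, sum_empty, zero_add, unc, e]
    split_ifs with hc
    · simpa using h0 S x hc
    · simpa using hB S x
  | succ T ih =>
    rw [sum_range_succ']
    simp only [unc_one]
    rw [sum_comm, mul_sum, add_right_comm, ← sum_add_distrib]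
    have e2 : ∑ y, P G x y * φ (insert x S) y ≤ ∑ y, (∑ t ∈ range T,
        P G x y * unc G t (insert x S) (fun _ : Fin 1 => y)
        + B * (P G x y * unc G T (insert x S) (fun _ : Fin 1 => y))) := by
      refine sum_le_sum fun y _ => ?_
      rw [← mul_sum, mul_left_comm, ← mul_add]
      exact mul_le_mul_of_nonneg_left (ih _ y) (P_nonneg _ _)
    simp only [unc, e]
    split_ifs with hc
    · refine (h0 S x hc).trans (add_nonneg (sum_nonneg fun y _ => add_nonneg
        (sum_nonneg fun t _ => mul_nonneg (P_nonneg _ _) (unc_nonneg _ _ _))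
        (mul_nonneg hB0 (mul_nonneg (P_nonneg _ _) (unc_nonneg _ _ _)))) le_rfl)
    · linarith [h S x hc]

lemma sum_unc_le (hP : ∀ x, ∑ y, P G x y = 1) (k : ℕ) (u : V) (T : ℕ) {θ : ℝ} (hθ0 : 0 ≤ θ)
    {b : V → ℝ} (hb : ∀ v n, ∑ t ∈ range n, avoid G t v u ≤ b v)
    (hθ : ∀ v t, T ≤ t → avoid G t v u ≤ θ) (n : ℕ) :
    ∑ t ∈ range n, unc G t ∅ (fun _ : Fin (k + 1) => u) ≤ T + θ ^ k * ∑ v, b v := by
  have pt : ∀ t, unc G t ∅ (fun _ : Fin (k + 1) => u)
      ≤ (if t < T then 1 else 0) + θ ^ k * ∑ v, avoid G t v u := by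
    intro t
    have h1 : 0 ≤ θ ^ k * ∑ v, avoid G t v u :=
      mul_nonneg (pow_nonneg hθ0 k) (sum_nonneg fun v _ => avoid_nonneg _ _ _)
    split_ifs with ht
    · linarith [unc_le_one hP t ∅ (fun _ : Fin (k + 1) => u)]
    · rw [zero_add, mul_sum]
      refine (unc_le t ∅ _).trans ?_
      rw [compl_empty]
      refine sum_le_sum fun v _ => ?_
      rw [prod_const, card_univ, Fintype.card_fin, pow_succ]
      exact mul_le_mul_of_nonneg_right (pow_le_pow_left₀ (avoid_nonneg _ _ _)
        (hθ v t (not_lt.1 ht)) k) (avoid_nonneg _ _ _)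
  refine (sum_le_sum fun t _ => pt t).trans ?_
  rw [sum_add_distrib, ← mul_sum, sum_comm]
  refine add_le_add ?_ (mul_le_mul_of_nonneg_left (sum_le_sum fun v _ => hb v n) (pow_nonneg hθ0 k))
  rw [sum_boole]
  have : ((range n).filter (· < T)).card ≤ T := by
    refine (card_le_card (t := range T) fun t ht => ?_).trans (card_range T).le
    simpa using (mem_filter.1 ht).2
  exact_mod_cast this

lemma markov (hP : ∀ x, ∑ y, P G x y = 1) {v u : V} {b : ℝ}
    (hb : ∀ n, ∑ t ∈ range n, avoid G t v u ≤ b) (t : ℕ) : t * avoid G t v u ≤ b := by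
  refine le_trans ?_ (hb t)
  have := card_nsmul_le_sum (range t) (fun s => avoid G s v u) (avoid G t v u)
    fun s hs => avoid_anti hP v u (mem_range.1 hs).le
  simpa using this

end general

abbrev W (N M : ℕ) : Type := Option (Fin N ⊕ Fin M)

/-- two cliques sharing the vertex `none` -/
def GG (N M : ℕ) : SimpleGraph (W N M) where
  Adj x y := x ≠ y ∧ match x, y with
    | some (.inl _), some (.inr _) => False
    | some (.inr _), some (.inl _) => False
    | _, _ => True
  symm := ⟨by
    rintro (_ | x | x) (_ | y | y) h <;> simp_all [eq_comm]⟩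
  loopless := ⟨fun x h => h.1 rfl⟩

section two
variable {N M : ℕ}

lemma sum_P {V : Type} [Fintype V] (G : SimpleGraph V) (x : V) (f : V → ℝ) :
    ∑ y, P G x y * f y
      = (∑ y, if G.Adj x y then f y else 0) / (∑ y, if G.Adj x y then (1 : ℝ) else 0) := by
  have : (G.degree x : ℝ) = ∑ y, if G.Adj x y then (1 : ℝ) else 0 := by
    rw [sum_boole, ← SimpleGraph.card_neighborFinset_eq_degree, SimpleGraph.neighborFinset_eq_filter]
  rw [← this, sum_div]
  refine sum_congr rfl fun y _ => ?_
  unfold P; split_ifs <;> ring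

lemma nb_none (f : W N M → ℝ) : (∑ y, if (GG N M).Adj none y then f y else 0)
    = ∑ i, f (some (.inl i)) + ∑ j, f (some (.inr j)) := by
  simp [Fintype.sum_option, Fintype.sum_sum_type, GG]

lemma nb_inl (i : Fin N) (f : W N M → ℝ) : (∑ y, if (GG N M).Adj (some (.inl i)) y then f y else 0)
    = f none + ∑ j, f (some (.inl j)) - f (some (.inl i)) := by
  rw [← add_sum_erase univ (fun j => f (some (.inl j))) (mem_univ i), ← filter_ne, sum_filter]
  simp [Fintype.sum_option, Fintype.sum_sum_type, GG]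
  ring

lemma nb_inr (i : Fin M) (f : W N M → ℝ) : (∑ y, if (GG N M).Adj (some (.inr i)) y then f y else 0)
    = f none + ∑ j, f (some (.inr j)) - f (some (.inr i)) := by
  rw [← add_sum_erase univ (fun j => f (some (.inr j))) (mem_univ i), ← filter_ne, sum_filter]
  simp [Fintype.sum_option, Fintype.sum_sum_type, GG]
  ring

lemma P_none (f : W N M → ℝ) : ∑ y, P (GG N M) none y * f y
    = (∑ i, f (some (.inl i)) + ∑ j, f (some (.inr j))) / (N + M) := by
  rw [sum_P, nb_none, nb_none]; simp

lemma P_inl (i : Fin N) (f : W N M → ℝ) : ∑ y, P (GG N M) (some (.inl i)) y * f y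
    = (f none + ∑ j, f (some (.inl j)) - f (some (.inl i))) / N := by
  rw [sum_P, nb_inl, nb_inl]; simp

lemma P_inr (i : Fin M) (f : W N M → ℝ) : ∑ y, P (GG N M) (some (.inr i)) y * f y
    = (f none + ∑ j, f (some (.inr j)) - f (some (.inr i))) / M := by
  rw [sum_P, nb_inr, nb_inr]; simp

lemma P_sum (hN : 0 < N) (hM : 0 < M) (x : W N M) : ∑ y, P (GG N M) x y = 1 := by
  have hN' : (0 : ℝ) < N := by exact_mod_cast hN
  have hM' : (0 : ℝ) < M := by exact_mod_cast hM
  rcases x with _ | x | x
  · have := P_none (N := N) (M := M) (fun _ => 1)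
    simp only [mul_one] at this; rw [this]; simp; positivity
  · have := P_inl (M := M) x (fun _ => 1)
    simp only [mul_one] at this; rw [this]; simp; omega
  · have := P_inr (N := N) x (fun _ => 1)
    simp only [mul_one] at this; rw [this]; simp; omega

lemma sum_ite_ne {n : ℕ} (j : Fin n) (a : ℝ) : (∑ i, if i = j then 0 else a) = (n - 1) * a := by
  rw [← add_sum_erase univ _ (mem_univ j), sum_congr rfl (g := fun _ => a)
    (fun i hi => if_neg (ne_of_mem_erase hi)), sum_const, card_erase_of_mem (mem_univ j)]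
  simp [Nat.cast_sub (Fin.pos j)]

/-- bound on hitting times -/
noncomputable def bd (N : ℕ) : W N (N ^ 2) → ℝ
  | some (.inl _) => 4 * N ^ 3
  | _ => 3 * N ^ 2

lemma hit_bd (hN : 3 ≤ N) (v x : W N (N ^ 2)) (n : ℕ) :
    ∑ t ∈ range n, avoid (GG N (N ^ 2)) t v x ≤ bd N v := by
  have hN' : (3 : ℝ) ≤ N := by exact_mod_cast hN
  have hN0 : (0 : ℝ) < N := by linarith
  have h2 : (3 : ℝ) * N ≤ N ^ 2 := by nlinarith
  have h3 : (3 : ℝ) * N ^ 2 ≤ N ^ 3 := by nlinarith
  have h4 : (3 : ℝ) * N ^ 3 ≤ N ^ 4 := by nlinarith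
  rcases v with _ | j | j
  · let φ : W N (N ^ 2) → ℝ := fun x => match x with
      | none => 0 | some (.inl _) => N | some (.inr _) => N ^ 2
    refine (sum_avoid_le (φ := φ) ?_ ?_ n x).trans ?_
    · rintro (_ | x | x) <;> simp [φ]
    · rintro (_ | x | x) hx
      · exact absurd rfl hx
      · rw [P_inl]; simp [φ]; field_simp; linarith
      · rw [P_inr]; simp [φ]; field_simp; linarith
    · rcases x with _ | x | x <;> simp [φ, bd] <;> nlinarith
  · let φ : W N (N ^ 2) → ℝ := fun x => match x with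
      | none => 3 * N ^ 3 | some (.inl i) => if i = j then 0 else (N + 3 * N ^ 3) / 2
      | some (.inr _) => 3 * N ^ 3 + N ^ 2
    refine (sum_avoid_le (φ := φ) ?_ ?_ n x).trans ?_
    · rintro (_ | x | x) <;> simp only [φ]
      · positivity
      · split_ifs <;> positivity
      · positivity
    · rintro (_ | x | x) hx
      · rw [P_none]; simp only [φ, sum_ite_ne]; simp
        rw [← le_sub_iff_add_le', div_le_iff₀ (by positivity)]; nlinarith
      · have : x ≠ j := fun e => hx (by rw [e])
        rw [P_inl]; simp only [φ, sum_ite_ne, if_neg this]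
        rw [← le_sub_iff_add_le', div_le_iff₀ (by positivity)]; nlinarith
      · rw [P_inr]; simp [φ]
        rw [← le_sub_iff_add_le', div_le_iff₀ (by positivity)]; nlinarith
    · rcases x with _ | x | x <;> simp only [φ, bd]
      · nlinarith
      · split_ifs <;> nlinarith
      · nlinarith
  · let φ : W N (N ^ 2) → ℝ := fun x => match x with
      | none => N ^ 2 + 4 | some (.inr i) => if i = j then 0 else N ^ 2 + 2
      | some (.inl _) => N ^ 2 + 4 + N
    refine (sum_avoid_le (φ := φ) ?_ ?_ n x).trans ?_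
    · rintro (_ | x | x) <;> simp only [φ]
      · positivity
      · positivity
      · split_ifs <;> positivity
    · rintro (_ | x | x) hx
      · rw [P_none]; simp only [φ, sum_ite_ne]; simp
        rw [← le_sub_iff_add_le', div_le_iff₀ (by positivity)]; nlinarith
      · rw [P_inl]; simp [φ]
        rw [← le_sub_iff_add_le', div_le_iff₀ (by positivity)]; nlinarith
      · have : x ≠ j := fun e => hx (by rw [e])
        rw [P_inr]; simp only [φ, sum_ite_ne, if_neg this]; push_cast
        rw [← le_sub_iff_add_le', div_le_iff₀ (by positivity)]; nlinarith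
    · rcases x with _ | x | x <;> simp only [φ, bd]
      · nlinarith
      · nlinarith
      · split_ifs <;> nlinarith

lemma avoid_le_one {V : Type} [Fintype V] {G : SimpleGraph V} (hP : ∀ x, ∑ y, P G x y = 1)
    (t : ℕ) (v x : V) : avoid G t v x ≤ 1 :=
  (avoid_anti hP v x (Nat.zero_le t)).trans (by simp only [avoid]; split_ifs <;> norm_num)

lemma avoid_K (hN : 3 ≤ N) (hM : 0 < M) (j : Fin N) (t : ℕ) (i : Fin N) :
    avoid (GG N M) t (some (.inl j)) (some (.inl i)) ≤ 1 / 2 + (1 - 2 / N) ^ t / 2 := by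
  have hN' : (3 : ℝ) ≤ N := by exact_mod_cast hN
  have hN0 : (0 : ℝ) < N := by linarith
  have hq : (0 : ℝ) ≤ 1 - 2 / N := by rw [sub_nonneg, div_le_one hN0]; linarith
  induction t generalizing i with
  | zero => simp only [avoid]; split_ifs <;> norm_num
  | succ t ih =>
    rw [avoid]
    split_ifs with h
    · positivity
    have hij : i ≠ j := fun e => h (by rw [e])
    rw [P_inl, div_le_iff₀ hN0]
    have h1 := avoid_le_one (P_sum (by omega : 0 < N) hM) t (some (.inl j)) none
    have h2 : ∑ l, avoid (GG N M) t (some (.inl j)) (some (.inl l))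
        - avoid (GG N M) t (some (.inl j)) (some (.inl i))
        ≤ (N - 2) * (1 / 2 + (1 - 2 / N) ^ t / 2) := by
      have h3 : ∑ l, avoid (GG N M) t (some (.inl j)) (some (.inl l))
          ≤ ∑ l, ((if l = j then 0 else (1 / 2 + (1 - 2 / (N : ℝ)) ^ t / 2))
            + if l = i then avoid (GG N M) t (some (.inl j)) (some (.inl i))
              - (1 / 2 + (1 - 2 / (N : ℝ)) ^ t / 2) else 0) := by
        refine sum_le_sum fun l _ => ?_
        by_cases a : l = j
        · subst a; cases t <;> simp [avoid, hij.symm]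
        · by_cases b : l = i
          · subst b; simp [a]
          · simpa [a, b] using ih l
      rw [sum_add_distrib, sum_ite_ne, sum_ite_eq' univ i, if_pos (mem_univ i)] at h3
      linarith
    have e : (1 / 2 + (1 - 2 / (N : ℝ)) ^ (t + 1) / 2) * N
        = 1 + (N - 2) * (1 / 2 + (1 - 2 / N) ^ t / 2) := by
      rw [pow_succ]; field_simp; ring
    rw [e]; linarith

/-- number of unvisited vertices of the small clique -/
noncomputable def nn (S : Finset (W N M)) : ℕ := (univ.filter fun j : Fin N => some (.inl j) ∉ S).card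

lemma nn_le (S : Finset (W N M)) : nn S ≤ N := by
  simpa [nn] using card_filter_le (univ : Finset (Fin N)) _

lemma nn_none (S : Finset (W N M)) : nn (insert none S) = nn S := by simp [nn]

lemma nn_inr (S : Finset (W N M)) (j : Fin M) : nn (insert (some (.inr j)) S) = nn S := by simp [nn]

lemma sum_nn (S : Finset (W N M)) (e : ℕ → ℝ) :
    ∑ j : Fin N, e (nn (insert (some (.inl j)) S)) = nn S * e (nn S - 1) + (N - nn S) * e (nn S) := by
  rw [← sum_filter_add_sum_filter_not univ (fun j : Fin N => some (.inl j) ∉ S)]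
  congr 1
  · rw [sum_congr rfl (g := fun _ => e (nn S - 1)), sum_const, nsmul_eq_mul]; · rfl
    intro j hj
    congr 1
    rw [nn, nn, ← card_erase_of_mem hj]
    congr 1
    ext l; simp
  · rw [sum_congr rfl (g := fun _ => e (nn S)), sum_const, nsmul_eq_mul]
    · congr 1
      have := card_filter_add_card_filter_not (s := (univ : Finset (Fin N)))
        (fun j : Fin N => some (.inl j) ∉ S)
      rw [card_univ, Fintype.card_fin] at this
      rw [eq_sub_iff_add_eq', nn]; exact_mod_cast this
    · intro j hj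
      rw [insert_eq_of_mem (by simpa using hj)]

noncomputable def ee (N n : ℕ) : ℝ := (N : ℝ) ^ 3 / 2 * (harmonic n : ℝ)

lemma ee_succ (N n : ℕ) : ee N (n + 1) = ee N n + (N : ℝ) ^ 3 / (2 * (n + 1)) := by
  simp only [ee, harmonic_succ]; push_cast; field_simp

lemma ee_nonneg (N n : ℕ) : 0 ≤ ee N n := by
  induction n with
  | zero => simp [ee]
  | succ n ih => rw [ee_succ]; positivity

lemma ee_mono (N : ℕ) : Monotone (ee N) :=
  monotone_nat_of_le_succ fun n => by rw [ee_succ]; exact le_add_of_nonneg_right (by positivity)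

noncomputable def pot (S : Finset (W N (N ^ 2))) : W N (N ^ 2) → ℝ
  | none => if nn S = 0 then 0 else ee N (nn S - 1) + N ^ 3
  | some (.inl j) => ee N (nn (insert (some (.inl j)) S))
  | some (.inr _) => if nn S = 0 then 0 else ee N (nn S - 1) + N ^ 3 + N ^ 2

lemma pot_le (hN : 3 ≤ N) (T : ℕ) (x : W N (N ^ 2)) :
    pot ∅ x ≤ ∑ t ∈ range T, unc (GG N (N ^ 2)) t ∅ (fun _ : Fin 1 => x)
      + (ee N N + N ^ 3 + N ^ 2) * unc (GG N (N ^ 2)) T ∅ (fun _ : Fin 1 => x) := by
  have hN' : (3 : ℝ) ≤ N := by exact_mod_cast hN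
  have hN0 : (0 : ℝ) < N := by linarith
  have e0 : ee N 0 = 0 := by simp [ee]
  have eN := ee_nonneg N N
  refine le_sum_unc (φ := pot) (by positivity) ?_ ?_ ?_ T ∅ x
  · intro S x
    have h1 := ee_mono N ((Nat.sub_le _ 1).trans (nn_le S))
    rcases x with _ | x | x <;> simp only [pot]
    · split_ifs <;> nlinarith
    · have := ee_mono N (nn_le (insert (some (.inl x)) S)); nlinarith
    · split_ifs <;> nlinarith
  · intro S x h
    have h1 : nn (insert x S) = 0 := by rw [h]; simp [nn]
    rcases x with _ | x | x <;> simp only [pot]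
    · rw [nn_none] at h1; simp [h1]
    · rw [h1, e0]
    · rw [nn_inr] at h1; simp [h1]
  · intro S x _
    rcases x with _ | x | x
    · rw [P_none]
      simp only [pot, sum_nn, nn_none, sum_const, card_univ, Fintype.card_fin, nsmul_eq_mul]
      have hn : (nn S : ℝ) ≤ N := by exact_mod_cast nn_le S
      rcases h : nn S with _ | n
      · simp [e0]
      · rw [h] at hn
        simp only [Nat.succ_ne_zero, if_false, Nat.add_sub_cancel]
        have := mul_le_mul_of_nonneg_left (ee_mono N (Nat.le_succ n)) (sub_nonneg.2 hn)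
        rw [← sub_le_iff_le_add', le_div_iff₀ (by positivity)]
        push_cast at *
        nlinarith
    · rw [P_inl]
      simp only [pot, sum_nn, insert_eq_of_mem (mem_insert_self _ _)]
      rcases h : nn (insert (some (Sum.inl x)) S) with _ | n
      · simp [e0]
      · simp only [Nat.succ_ne_zero, if_false, Nat.add_sub_cancel]
        rw [← sub_le_iff_le_add', le_div_iff₀ hN0, ee_succ]
        have h1 : ((n : ℝ) + 2) * ((N : ℝ) ^ 3 / (2 * (n + 1))) ≤ N ^ 3 := by
          rw [← mul_div_assoc, div_le_iff₀ (by positivity)]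
          have : (0 : ℝ) ≤ n * N ^ 3 := by positivity
          nlinarith
        push_cast
        nlinarith
    · rw [P_inr]
      simp only [pot, nn_inr, sum_const, card_univ, Fintype.card_fin, nsmul_eq_mul]
      split_ifs
      · simp
      · rw [← sub_le_iff_le_add', le_div_iff₀ (by positivity)]
        push_cast
        nlinarith

lemma conn : (GG N M).Connected := by
  have : ∀ x, (GG N M).Reachable none x := by
    rintro (_ | x)
    · rfl
    · exact SimpleGraph.Adj.reachable (by simp [GG])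
  exact ⟨fun x y => (this x).symm.trans (this y)⟩

lemma main (J : ℕ) (hJ : 2 ≤ J) :
    ((2 ^ J : ℕ) : ℝ) ^ 3 * J / 4 ≤ Cmax (GG (2 ^ J) ((2 ^ J) ^ 2)) ∧
    (J : ℝ) / 16 ≤ HH (GG (2 ^ J) ((2 ^ J) ^ 2)) ∧
    ∃ u, cover (GG (2 ^ J) ((2 ^ J) ^ 2)) (fun _ : Fin (5 * J + 1) => u)
      ≤ 16 * ((2 ^ J : ℕ) : ℝ) ^ 2 := by
  have hN : 3 ≤ 2 ^ J := le_trans (by norm_num) (Nat.pow_le_pow_right (by norm_num) hJ)
  have hlog : (J : ℝ) / 2 ≤ Real.log ((2 ^ J : ℕ) : ℝ) := by
    push_cast; rw [Real.log_pow]
    have := Real.log_two_gt_d9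
    have : (0 : ℝ) ≤ J := by positivity
    nlinarith
  have hθ : (3 / 4 : ℝ) ^ (5 * J) * ((2 ^ J : ℕ) : ℝ) ^ 2 ≤ 1 := by
    push_cast; rw [pow_mul, ← pow_mul 2, mul_comm J 2, pow_mul, ← mul_pow]
    exact pow_le_one₀ (by norm_num) (by norm_num)
  generalize 2 ^ J = N at *
  have hN' : (3 : ℝ) ≤ N := by exact_mod_cast hN
  have hN0 : (0 : ℝ) < N := by linarith
  have hP := P_sum (by omega : 0 < N) (by positivity : 0 < N ^ 2)
  have hC : (N : ℝ) ^ 3 * J / 4 ≤ Cmax (GG N (N ^ 2)) := by
    set x : W N (N ^ 2) := none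
    refine le_trans ?_ (le_ciSup (f := fun x => cover (GG N (N ^ 2)) (fun _ : Fin 1 => x))
      (Set.finite_range _).bddAbove x)
    have hs : Summable fun t => unc (GG N (N ^ 2)) t ∅ (fun _ : Fin 1 => x) :=
      summable_of_sum_range_le (fun t => unc_nonneg _ _ _) (sum_unc_le hP 0 x 0 zero_le_one
        (fun v n => hit_bd hN v x n) (fun v t _ => avoid_le_one hP _ _ _))
    have hl := hs.hasSum.tendsto_sum_nat.add
      (hs.tendsto_atTop_zero.const_mul (ee N N + N ^ 3 + N ^ 2))
    have h1 := ge_of_tendsto' hl (fun T => pot_le hN T x)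
    rw [mul_zero, add_zero] at h1
    refine le_trans ?_ h1
    have h2 : nn (∅ : Finset (W N (N ^ 2))) = N := by simp [nn]
    simp only [x, pot, h2, if_neg (show N ≠ 0 by omega), ee]
    have h3 := log_add_one_le_harmonic (N - 1)
    rw [Nat.sub_add_cancel (by omega)] at h3
    have h4 : (0 : ℝ) ≤ N ^ 3 := by positivity
    nlinarith
  have hbd : ∀ v : W N (N ^ 2), bd N v ≤ 4 * N ^ 3 := by
    rintro (_ | v | v) <;> simp only [bd] <;> nlinarith
  have hh : hmax (GG N (N ^ 2)) ≤ 4 * N ^ 3 :=
    ciSup_le fun p => Real.tsum_le_of_sum_range_le (fun t => avoid_nonneg _ _ _)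
      fun n => (hit_bd hN _ _ n).trans (hbd _)
  set u : W N (N ^ 2) := some (.inl ⟨0, by omega⟩) with hu
  have hh0 : 0 < hmax (GG N (N ^ 2)) := by
    refine lt_of_lt_of_le ?_ (le_ciSup (f := fun p : W N (N ^ 2) × W N (N ^ 2) =>
      hit (GG N (N ^ 2)) p.1 p.2) (Set.finite_range _).bddAbove (none, u))
    have hs : Summable fun t => avoid (GG N (N ^ 2)) t u none :=
      summable_of_sum_range_le (fun t => avoid_nonneg _ _ _) (hit_bd hN _ _)
    exact hs.tsum_pos (fun t => avoid_nonneg _ _ _) 0 (by simp [avoid, hu])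
  refine ⟨hC, ?_, u, ?_⟩
  · rw [HH, le_div_iff₀ hh0]
    have : (0 : ℝ) ≤ J := by positivity
    nlinarith
  · refine Real.tsum_le_of_sum_range_le (fun t => unc_nonneg _ _ _) fun n => ?_
    refine (sum_unc_le hP (5 * J) u (6 * N ^ 2) (θ := 3 / 4) (by norm_num)
      (fun v n => hit_bd hN v u n) ?_ n).trans ?_
    · intro v t ht
      have ht' : (6 : ℝ) * N ^ 2 ≤ t := by exact_mod_cast ht
      have hm := markov hP (hit_bd hN v u) t
      have ha := avoid_nonneg (G := GG N (N ^ 2)) t v u
      have hsq : (0 : ℝ) < N ^ 2 := by positivity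
      rcases v with _ | j | j
      · simp only [bd] at hm; nlinarith
      · refine (avoid_K hN (by positivity) j t _).trans ?_
        have h1 : (1 - 2 / (N : ℝ)) ^ t ≤ Real.exp (-(2 / N)) ^ t :=
          pow_le_pow_left₀ (by rw [sub_nonneg, div_le_one hN0]; linarith)
            (by linarith [Real.add_one_le_exp (-(2 / (N : ℝ)))]) t
        rw [← Real.exp_nat_mul, mul_neg, Real.exp_neg] at h1
        have h2 : (2 : ℝ) ≤ Real.exp (t * (2 / N)) := by
          refine le_trans ?_ (Real.add_one_le_exp _)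
          have : (1 : ℝ) ≤ t * (2 / N) := by
            rw [← mul_div_assoc, le_div_iff₀ hN0]; nlinarith
          linarith
        have h3 := inv_anti₀ (by norm_num) h2
        linarith
      · simp only [bd] at hm; nlinarith
    · have h1 : ∑ v : W N (N ^ 2), bd N v ≤ 10 * ((N : ℝ) ^ 2 * N ^ 2) := by
        simp [Fintype.sum_option, Fintype.sum_sum_type, bd]
        have : (1 : ℝ) ≤ N ^ 2 := by nlinarith
        nlinarith
      have h2 := mul_le_mul_of_nonneg_left h1 (pow_nonneg (by norm_num : (0 : ℝ) ≤ 3 / 4) (5 * J))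
      have hsq : (0 : ℝ) < N ^ 2 := by positivity
      push_cast
      nlinarith

end two

theorem result : ∀ α c K : ℝ, 0 < α → 0 < c →
    ∃ (V : Type) (_ : Fintype V) (G : SimpleGraph V), G.Connected ∧ K ≤ HH G ∧
      ∃ k : ℕ, 1 ≤ k ∧ (k : ℝ) ≤ Real.exp (α * HH G) ∧
        ∃ u : Fin k → V, c * k * cover G u < Cmax G := by
  intro α c K hα hc
  obtain ⟨J, hJ⟩ := exists_nat_gt (max (max 2 (16 * K)) (max (3072 / α ^ 2) (384 * c)))
  simp only [max_lt_iff] at hJ
  obtain ⟨⟨h1, h2⟩, h3, h4⟩ := hJ
  have hJ2 : 2 ≤ J := by exact_mod_cast h1.le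
  obtain ⟨a1, a2, u, a3⟩ := main J hJ2
  refine ⟨_, inferInstance, GG (2 ^ J) ((2 ^ J) ^ 2), conn, by linarith, 5 * J + 1, by omega, ?_,
    fun _ => u, ?_⟩
  · have b1 : Real.exp (α * (J / 16)) ≤ Real.exp (α * HH (GG (2 ^ J) ((2 ^ J) ^ 2))) :=
      Real.exp_le_exp.2 (mul_le_mul_of_nonneg_left a2 hα.le)
    have b2 := Real.quadratic_le_exp_of_nonneg (x := α * (J / 16)) (by positivity)
    rw [div_lt_iff₀ (by positivity)] at h3
    have b3 : 0 ≤ α * (J / 16) := by positivity
    push_cast
    nlinarith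
  · have b1 : (J : ℝ) < ((2 ^ J : ℕ) : ℝ) := by exact_mod_cast Nat.lt_two_pow_self
    generalize ((2 ^ J : ℕ) : ℝ) = N at *
    have hN : 0 < N := by linarith
    refine lt_of_lt_of_le ?_ a1
    have b2 : c * ((5 * J + 1 : ℕ) : ℝ) ≤ c * (6 * J) := by
      push_cast; exact mul_le_mul_of_nonneg_left (by linarith) hc.le
    calc _ ≤ c * ((5 * J + 1 : ℕ) : ℝ) * (16 * N ^ 2) :=
          mul_le_mul_of_nonneg_left a3 (by positivity)
      _ ≤ c * (6 * J) * (16 * N ^ 2) := mul_le_mul_of_nonneg_right b2 (by positivity)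
      _ = (384 * c) * (N ^ 2 * J / 4) := by ring
      _ < N * (N ^ 2 * J / 4) := mul_lt_mul_of_pos_right (by linarith) (by positivity)
      _ = _ := by ring

end Pool.Agent.Results.MP_a2c283_pr.TwoCliques
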